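import Pool.Agent.H396R3.C.Param2

/-!
# MP_1ce311_an, Q1: optimal cubature error for mixed Sobolev classes of small smoothness

The conjectured lower bounds for arbitrary nodes and arbitrary real weights, in every dimension
`d ≥ 2` and for every `2 < p < ∞`:

* `κ_m(W^r_p) ≥ c m^(-r) (log m)^((d-1)(1-r))` for `1/p < r < 1/2`,
* `κ_m(W^r_p) ≥ c m^(-1/2) (log m)^((d-1)/2) (log log m)^(1/2)` for `r = 1/2`.

Method. For a finite set `A` of dyadic shapes `s` with `|s| = l` let `h_A` be the indicator of the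
set of points not in one of the `2^d` dyadic boxes of shape `s ∈ A` around one of the nodes. If
`m |A| 2^(d+1) ≤ 2^l`, then `h_A` has mean at least `1/2` and
`f_A = ∑_{s ∈ A} (piecewise linear interpolation of the box averages of h_A on the grid of shape s)`
vanishes at all nodes and has integral at least `|A|/2`. The main point is
`‖D^r ∑_j f_{A_j}‖_p ≤ C (∑_j 2^(2 r l_j))^(1/2)` for disjoint `A_j`, which does not depend on the
sizes of the `A_j`; it comes from two vector valued square function inequalities for the refinement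
differences `E_n - U_n E_{n-1}` and for the kernels `D^r (hat function of level n)`, both proved on
finite cyclic groups and iterated over the coordinates. One family of all shapes of one level gives
the first bound. For the second one the levels `l_0 + i`, `0 ≤ i < I`, are used, the shapes of level
`l_0 + i` being divided into groups of `2^i` shapes.
-/

open MeasureTheory Filter

namespace Pool.Agent.Results.MP_1ce311_an.SmallSmoothness

/-- the univariate Bernoulli kernel `F_r(t) = 1 + 2 ∑_{k ≥ 1} k^(-r) cos(k t - r π / 2)`, the limit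
of the partial sums (which exists for `t` not in `2 π ℤ`) -/
noncomputable def F (r t : ℝ) : ℝ :=
  limUnder atTop (fun N : ℕ => 1 + 2 * ∑ k ∈ Finset.range N,
    ((k:ℝ) + 1) ^ (-r) * Real.cos (((k:ℝ) + 1) * t - r * Real.pi / 2))

/-- the normalised Lebesgue measure `(2π)^(-d) dx` on `[0,2π)^d` -/
noncomputable def torus (d : ℕ) : Measure (Fin d → ℝ) :=
  (ENNReal.ofReal (2 * Real.pi)⁻¹) ^ d • (volume.restrict (Set.univ.pi fun _ => Set.Ico 0 (2 * Real.pi)))

/-- the class `W^r_p` of all convolutions `F_r * φ` with `‖φ‖_p ≤ 1` -/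
def SobolevClass (d : ℕ) (r p : ℝ) : Set ((Fin d → ℝ) → ℝ) :=
  {f | ∃ φ : (Fin d → ℝ) → ℝ, AEStronglyMeasurable φ (torus d) ∧
    eLpNorm φ (ENNReal.ofReal p) (torus d) ≤ 1 ∧
    ∀ x, f x = ∫ y, (∏ j, F r (x j - y j)) * φ y ∂(torus d)}

/-- the optimal cubature error with `m` nodes and real weights -/
noncomputable def kappa (d m : ℕ) (W : Set ((Fin d → ℝ) → ℝ)) : ENNReal :=
  ⨅ (ξ : Fin m → Fin d → ℝ) (w : Fin m → ℝ), ⨆ f ∈ W,
    ENNReal.ofReal |∫ x, f x ∂(torus d) - ∑ j, w j * f (ξ j)|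

theorem torus_eq (d : ℕ) : torus d = H396C.torus d := rfl

theorem F_eq (r t : ℝ) : F r t = H396C.bern r t := rfl

theorem class_eq (d : ℕ) (r p : ℝ) : SobolevClass d r p = H396C.SobolevClass d r p := rfl

theorem result (d : ℕ) (hd : 2 ≤ d) (p r : ℝ) (hp : 2 < p) (hr : 1 / p < r) (hr2 : r ≤ 1 / 2) :
    ∃ c : ℝ, 0 < c ∧ ∃ m₀ : ℕ, ∀ m ≥ m₀,
      (r < 1 / 2 → ENNReal.ofReal (c * (m:ℝ) ^ (-r) * (Real.log m) ^ (((d:ℝ) - 1) * (1 - r))) ≤
        kappa d m (SobolevClass d r p)) ∧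
      (r = 1 / 2 → ENNReal.ofReal (c * (m:ℝ) ^ (-r) * (Real.log m) ^ (((d:ℝ) - 1) / 2) *
        Real.sqrt (Real.log (Real.log m))) ≤ kappa d m (SobolevClass d r p)) := by
  obtain ⟨e, rfl⟩ : ∃ e, d = e + 1 := ⟨d - 1, by omega⟩
  have hr0 : 0 < r := lt_trans (by positivity) hr
  have he : (((e + 1 : ℕ) : ℝ) - 1) = e := by push_cast; ring
  rw [he]
  rcases hr2.lt_or_eq with h | h
  · obtain ⟨c, hc, m₀, hm⟩ := H396C.regime1 hr0 (by linarith) e p
    refine ⟨c, hc, m₀, fun m hmm => ⟨fun _ => ?_, fun h' => absurd h' h.ne⟩⟩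
    unfold kappa
    refine le_iInf₂ fun ξ w => ?_
    obtain ⟨f, hf, hfb⟩ := hm m hmm ξ w
    exact le_trans (ENNReal.ofReal_le_ofReal hfb)
      (le_iSup₂ (f := fun (f : (Fin (e+1) → ℝ) → ℝ) (_ : f ∈ SobolevClass (e+1) r p) =>
        ENNReal.ofReal |∫ x, f x ∂(torus (e+1)) - ∑ j, w j * f (ξ j)|) f hf)
  · subst h
    obtain ⟨c, hc, m₀, hm⟩ := H396C.regime2 e (by omega) p
    refine ⟨c, hc, m₀, fun m hmm => ⟨fun h' => absurd h' (lt_irrefl _), fun _ => ?_⟩⟩
    unfold kappa
    refine le_iInf₂ fun ξ w => ?_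
    obtain ⟨f, hf, hfb⟩ := hm m hmm ξ w
    exact le_trans (ENNReal.ofReal_le_ofReal hfb)
      (le_iSup₂ (f := fun (f : (Fin (e+1) → ℝ) → ℝ) (_ : f ∈ SobolevClass (e+1) (1/2) p) =>
        ENNReal.ofReal |∫ x, f x ∂(torus (e+1)) - ∑ j, w j * f (ξ j)|) f hf)

end Pool.Agent.Results.MP_1ce311_an.SmallSmoothness
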